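import Mathlib
import Pool.Agent.Hhelper87.SigmaTwo.Equiv
import Pool.Agent.Hhelper87.SigmaTwo.Upper
import Pool.Agent.Hhelper87.SigmaTwo.LowerFinal

/-!
# The number of solutions of `sigma_2 = sigma_n` is not eventually non-decreasing

For `n` let `S n` be the set of non-decreasing `n`-tuples of positive integers with
`sigma_2 = sigma_n`.  We prove that `n ↦ |S n|` is not eventually non-decreasing.

Idea.  Writing `w` for the multiset of the entries `≥ 2`, the equation reads
`h (h - 1) = 2 ∏ w + ∑ a (a - 1)` with `h = n + ∑ (a - 1)`.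
* Lower bound: taking the product of all entries but the largest equal to the sum of these
  entries plus one, and using pigeonhole among many factorisations of a fixed smooth integer, one
  gets `|S n| ≥ n ^ (180/181)` for arbitrarily large `n`.
* Upper bound: for large `B` some `n` with `B ^ 181 ≤ n < 2 B ^ 181` has `|S n| < c B ^ 180`,
  by counting separately the solutions with a large entry (divisor bound) and those
  with small entries only (which split in three multisets of product at most `B ^ 181` dividing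
  `h (h - 1) - ∑ a (a - 1)`).
-/

namespace Pool.Agent.Results.MP_754333_nt.NotEventuallyIncreasing

/-- `S n` is the set of all `x : Fin n → ℕ` with positive entries, non-decreasing, satisfying
`sigma_2 (x) = sigma_n (x)`, where `sigma_k` is the `k`-th elementary symmetric polynomial
in `n` variables. -/
def S (n : ℕ) : Set (Fin n → ℕ) :=
  {x | (∀ i, 0 < x i) ∧ Monotone x ∧
    MvPolynomial.eval x (MvPolynomial.esymm (Fin n) ℕ 2) =
      MvPolynomial.eval x (MvPolynomial.esymm (Fin n) ℕ n)}

open Pool.Agent.Hhelper87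

/-- The function `n ↦ |S n|` is not eventually non-decreasing. -/
theorem result : ¬ ∃ N : ℕ, ∀ n ≥ N, (S n).encard ≤ (S (n + 1)).encard := by
  classical
  rintro ⟨N, hN⟩
  have hS : ∀ n, (S n).encard = {w : Multiset ℕ | IsSol n w}.encard := fun n => encard_SolSet n
  have hmono : ∀ m n, N ≤ m → m ≤ n → (S m).encard ≤ (S n).encard := by
    intro m n hm hmn
    induction n, hmn using Nat.le_induction with
    | base => exact le_refl _
    | succ k hk ih => exact ih.trans (hN k (hm.trans hk))
  obtain ⟨B0, hB0⟩ := Filter.eventually_atTop.mp (upper (1 / 2 ^ 180) (by positivity))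
  obtain ⟨P, n, hMn, hnP, A, hA, hcard⟩ := lower (N + (B0 + 2) ^ 181 + 1)
  -- the least B with P ≤ B ^ 181
  have hex : ∃ B : ℕ, P ≤ B ^ 181 := by
    refine ⟨P + 1, ?_⟩
    calc P ≤ P + 1 := Nat.le_succ P
      _ = (P + 1) ^ 1 := (pow_one _).symm
      _ ≤ (P + 1) ^ 181 := Nat.pow_le_pow_right (by omega) (by norm_num)
  obtain ⟨B, hB1, hB2⟩ : ∃ B : ℕ, P ≤ B ^ 181 ∧ ∀ b < B, b ^ 181 < P := by
    refine ⟨Nat.find hex, Nat.find_spec hex, fun b hb => ?_⟩
    have := Nat.find_min hex hb
    omega
  have hPbig : (B0 + 2) ^ 181 < P := by omega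
  have hBB0 : B0 + 2 < B := by
    by_contra hcon
    push Not at hcon
    have : B ^ 181 ≤ (B0 + 2) ^ 181 := Nat.pow_le_pow_left hcon 181
    omega
  have hB3 : (B - 1) ^ 181 < P := hB2 (B - 1) (by omega)
  have hcardB : (B - 1) ^ 180 ≤ A.card := by
    by_contra hcon
    push Not at hcon
    have h1 : A.card ^ 181 < ((B - 1) ^ 180) ^ 181 := Nat.pow_lt_pow_left hcon (by norm_num)
    have h2 : ((B - 1) ^ 181) ^ 180 ≤ P ^ 180 := Nat.pow_le_pow_left hB3.le 180
    have h3 : ((B - 1) ^ 180) ^ 181 = ((B - 1) ^ 181) ^ 180 := by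
      rw [← pow_mul, ← pow_mul]
    omega
  have hcardBr : (1 / 2 ^ 180 : ℝ) * (B : ℝ) ^ 180 ≤ A.card := by
    have h1 : ((B : ℝ) / 2) ^ 180 ≤ (((B - 1 : ℕ)) : ℝ) ^ 180 := by
      apply pow_le_pow_left₀ (by positivity)
      rw [Nat.cast_sub (by omega)]
      have : (2 : ℝ) ≤ B := by
        have : 2 ≤ B := by omega
        exact_mod_cast this
      push_cast
      linarith
    have h2 : (((B - 1 : ℕ)) : ℝ) ^ 180 ≤ A.card := by exact_mod_cast hcardB
    calc (1 / 2 ^ 180 : ℝ) * (B : ℝ) ^ 180 = ((B : ℝ) / 2) ^ 180 := by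
          rw [div_pow]; ring
      _ ≤ _ := h1.trans h2
  refine hB0 B (by omega) ?_
  intro n' hn'
  rw [Finset.mem_Ico] at hn'
  have hle : (A.card : ℕ∞) ≤ {w : Multiset ℕ | IsSol n' w}.encard := by
    rw [← hS n']
    refine le_trans ?_ (hmono n n' (by omega) (by omega))
    rw [hS n, ← Set.encard_coe_eq_coe_finsetCard]
    apply Set.encard_le_encard
    intro w hw
    exact hA w hw
  obtain ⟨t, ht1, ht2⟩ := Set.exists_subset_encard_eq hle
  have htfin : t.Finite := Set.finite_of_encard_eq_coe ht2
  refine ⟨htfin.toFinset, ?_, ?_⟩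
  · intro w hw
    rw [Set.Finite.mem_toFinset] at hw
    exact ht1 hw
  · have h1 : (htfin.toFinset).card = A.card := by
      have h2 := htfin.encard_eq_coe_toFinset_card
      rw [ht2] at h2
      exact_mod_cast h2.symm
    rw [h1]
    exact hcardBr

end Pool.Agent.Results.MP_754333_nt.NotEventuallyIncreasing
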